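import Pool.Agent.LP.Final

set_option autoImplicit false

namespace Pool.Agent.Results.MP_791a91_al.NoInvariantLPres

/-- For every finite noncommutative simple group `A` there is a finitely generated contracting
self-similar group that has no finite L-presentation with fixed relators `Q`, iterated relators `R`
and endomorphisms `Φ` that preserve the kernel. -/
theorem result (A : Type) [Group A] [Finite A] [IsSimpleGroup A] (hA : ∃ a b : A, a * b ≠ b * a) :
    ∃ (d : ℕ) (G : Subgroup (Equiv.Perm (List (Fin d)))),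
    Group.FG G ∧
    (∀ g ∈ G, g [] = []) ∧
    (∀ g ∈ G, ∀ x : Fin d, ∃ y : Fin d, ∃ h ∈ G, ∀ w : List (Fin d), g (x :: w) = y :: h w) ∧
    (∃ N : Finset (Equiv.Perm (List (Fin d))), ∀ g ∈ G, ∃ k : ℕ, ∀ v : List (Fin d),
        k ≤ v.length → ∀ h ∈ G, (∀ w : List (Fin d), g (v ++ w) = g v ++ h w) → h ∈ N) ∧
    ∀ (m : ℕ) (Q R : Finset (FreeGroup (Fin m))) (Φ : Finset (Monoid.End (FreeGroup (Fin m)))),
      (∀ φ ∈ Φ, ∀ x ∈ Subgroup.normalClosure ((Q : Set (FreeGroup (Fin m))) ∪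
          {x | ∃ φ ∈ Submonoid.closure (Φ : Set (Monoid.End (FreeGroup (Fin m)))), ∃ r ∈ R, x = φ r}),
        φ x ∈ Subgroup.normalClosure ((Q : Set (FreeGroup (Fin m))) ∪
          {x | ∃ φ ∈ Submonoid.closure (Φ : Set (Monoid.End (FreeGroup (Fin m)))), ∃ r ∈ R, x = φ r})) →
      ¬ Nonempty (G ≃* PresentedGroup ((Q : Set (FreeGroup (Fin m))) ∪
          {x | ∃ φ ∈ Submonoid.closure (Φ : Set (Monoid.End (FreeGroup (Fin m)))), ∃ r ∈ R, x = φ r})) := by
  classical
  obtain ⟨d, G, h1, h2, h3, h4, h5⟩ := Pool.LP.exists_group hA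
  refine ⟨d, G, h1, h2, h3, h4, ?_⟩
  rintro m Q R Φ hinv ⟨iso⟩
  refine h5 m (Q ∪ R) Φ ⟨iso.trans (QuotientGroup.quotientMulEquivOfEq ?_)⟩
  set S : Set (FreeGroup (Fin m)) := (Q : Set (FreeGroup (Fin m))) ∪
          {x | ∃ φ ∈ Submonoid.closure (Φ : Set (Monoid.End (FreeGroup (Fin m)))), ∃ r ∈ R, x = φ r}
    with hS
  have hinv' : ∀ φ ∈ Submonoid.closure (Φ : Set (Monoid.End (FreeGroup (Fin m)))),
      ∀ x ∈ Subgroup.normalClosure S, φ x ∈ Subgroup.normalClosure S := by
    intro φ hφ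
    induction hφ using Submonoid.closure_induction with
    | mem φ hφ => exact hinv φ hφ
    | one => intro x hx; exact hx
    | mul φ ψ _ _ e1 e2 => intro x hx; exact e1 _ (e2 x hx)
  apply le_antisymm
  · refine Subgroup.normalClosure_le_normal ?_
    rintro x (hx | ⟨φ, hφ, r, hr, rfl⟩)
    · exact Subgroup.subset_normalClosure
        ⟨1, one_mem _, x, Finset.mem_union_left _ (by exact_mod_cast hx), rfl⟩
    · exact Subgroup.subset_normalClosure ⟨φ, hφ, r, Finset.mem_union_right _ hr, rfl⟩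
  · refine Subgroup.normalClosure_le_normal ?_
    rintro x ⟨φ, hφ, r, hr, rfl⟩
    rcases Finset.mem_union.mp hr with hr | hr
    · exact hinv' φ hφ r (Subgroup.subset_normalClosure (Or.inl (by exact_mod_cast hr)))
    · exact Subgroup.subset_normalClosure (Or.inr ⟨φ, hφ, r, hr, rfl⟩)

end Pool.Agent.Results.MP_791a91_al.NoInvariantLPres
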